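import Pool.Agent.Lib.MP_266831_co.TopDefs
import Pool.Agent.Lib.MP_266831_co.Top
import Pool.Agent.Lib.MP_266831_co.UncLift

/-!
# Lower bounds for the biplanar crossing number of `K_{p,q}`, all `p`

The definitions `TopDrawing`, `TopDrawing.crossings`, `crTop`, `crTwoTop` of the statement are in
`Pool/Agent/Lib/MP_266831_co/TopDefs.lean`.

The sharp counting bound for `m` of the `p` vertices is averaged over all sets of `m` vertices. For this
the drawings of the two planes are first uncrossed in the combinatorial model, so that two edges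
with a common end on the `p`-side do not cross (`UncPiece`, `UncSplice`, `UncMin`, `UncGood`, `UncLift`).
-/

set_option autoImplicit false

namespace Pool.Agent.Results.MP_266831_co.LowerAveraged

open Pool.Agent.Lib.MP_266831_co

/-- For all `4 ≤ m ≤ p`, all `q` and all `k, r` with `4 (m-2) k + r ≤ (m-4) q`:
`m (m-1) cr_2(K_{p,q}) ≥ p (p-1) (4 (m-2) k (k-1) / 2 + r k)`.

With `m = p`, `k = ⌊(p-4) q / (4 (p-2))⌋` this gives
`cr_2(K_{p,q}) ≥ (1 - o(1)) (p-4)^2 q^2 / (8 (p-2))` as `q → ∞`, and with `m = 10`, `k = ⌊3 q / 16⌋`,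
`r = 6 q - 32 k`, for all `p ≥ 10` and all `q`: `cr_2(K_{p,q}) ≥ p (p-1) q (3 q - 16) / 480`. -/
theorem result (m p q k r : ℕ) (hm : 4 ≤ m) (hmp : m ≤ p) (h : 4 * (m - 2) * k + r ≤ (m - 4) * q) :
    ((p * (p - 1) * (4 * (m - 2) * k.choose 2 + r * k) : ℕ) : ℕ∞) ≤
      ((m * (m - 1) : ℕ) : ℕ∞) * crTwoTop (completeBipartiteGraph (Fin p) (Fin q)) := by
  rw [← crTwo_eq_crTwoTop]
  exact Unc.lower_avg hm hmp k r h

end Pool.Agent.Results.MP_266831_co.LowerAveraged
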