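import Pool.Agent.Lib.MP_266831_co.TopDefs
import Pool.Agent.Lib.MP_266831_co.Top
import Pool.Agent.Lib.MP_266831_co.Limits

/-!
# Asymptotics (and exact values) of the biplanar crossing number of `K_{p,q}` for `p = 5, 6, 7, 8`

The definitions `TopDrawing`, `TopDrawing.crossings`, `crTop`, `crTwoTop` of the statement are in
`Pool/Agent/Lib/MP_266831_co/TopDefs.lean`.
-/

set_option autoImplicit false

namespace Pool.Agent.Results.MP_266831_co.SmallP

open Pool.Agent.Lib.MP_266831_co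
open Filter Topology Asymptotics

/-- For `p = 5, 6, 7, 8`: `cr_2(K_{p,q})` is asymptotically `(p-4)^2 q^2 / (8 (p-2))` as `q → ∞`; and the
exact values are known for all `q` if `p = 5, 6, 8`, and for `q` divisible by `20` if `p = 7`. -/
theorem result :
    (∀ p : ℕ, 5 ≤ p → p ≤ 8 →
      (∀ q : ℕ, crTwoTop (completeBipartiteGraph (Fin p) (Fin q)) ≠ ⊤) ∧
      IsEquivalent atTop
        (fun q : ℕ => ((crTwoTop (completeBipartiteGraph (Fin p) (Fin q))).toNat : ℝ))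
        (fun q : ℕ => ((p : ℝ) - 4) ^ 2 / (8 * ((p : ℝ) - 2)) * (q : ℝ) ^ 2)) ∧
    (∀ k r : ℕ, r < 12 → crTwoTop (completeBipartiteGraph (Fin 5) (Fin (12 * k + r))) =
      ((12 * k.choose 2 + r * k : ℕ) : ℕ∞)) ∧
    (∀ k r : ℕ, r < 8 → crTwoTop (completeBipartiteGraph (Fin 6) (Fin (8 * k + r))) =
      ((2 * (8 * k.choose 2 + r * k) : ℕ) : ℕ∞)) ∧
    (∀ k : ℕ, crTwoTop (completeBipartiteGraph (Fin 7) (Fin (20 * k))) =
      ((60 * k ^ 2 + 60 * k.choose 2 : ℕ) : ℕ∞)) ∧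
    (∀ k r : ℕ, r < 6 → crTwoTop (completeBipartiteGraph (Fin 8) (Fin (6 * k + r))) =
      ((4 * (6 * k.choose 2 + r * k) : ℕ) : ℕ∞)) := by
  refine ⟨fun p hp hp' => ?_, fun k r hr => ?_, fun k r hr => ?_, fun k => ?_, fun k r hr => ?_⟩
  · obtain ⟨h1, h2⟩ := asymp hp hp'
    simp only [crTwo_eq_crTwoTop] at h1 h2
    refine ⟨h1, ?_⟩
    have hpr : (5 : ℝ) ≤ p := by exact_mod_cast hp
    have hc : 0 < ((p : ℝ) - 4) ^ 2 / (8 * ((p : ℝ) - 2)) :=
      div_pos (pow_pos (by linarith) 2) (by linarith)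
    rw [isEquivalent_iff_tendsto_one]
    · have h3 := h2.div_const (((p : ℝ) - 4) ^ 2 / (8 * ((p : ℝ) - 2)))
      rw [div_self hc.ne'] at h3
      refine h3.congr fun q => ?_
      simp only [Pi.div_apply]
      rw [div_div, mul_comm ((q : ℝ) ^ 2)]
    · filter_upwards [eventually_gt_atTop 0] with q hq
      have hq0 : (0 : ℝ) < q := by exact_mod_cast hq
      positivity
  · rw [← crTwo_eq_crTwoTop]
    exact exact5 k r hr.le
  · rw [← crTwo_eq_crTwoTop]
    exact exact6 k r hr.le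
  · rw [← crTwo_eq_crTwoTop]
    exact exact7 k
  · rw [← crTwo_eq_crTwoTop]
    exact exact8 k r hr.le

end Pool.Agent.Results.MP_266831_co.SmallP
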