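import Pool.Agent.Lib.MP_266831_co.TopDefs
import Pool.Agent.Lib.MP_266831_co.Top
import Pool.Agent.Lib.MP_266831_co.UpperGen

/-!
# An upper bound for the biplanar crossing number of all complete bipartite graphs

The definitions `TopDrawing`, `TopDrawing.crossings`, `crTop`, `crTwoTop` of the statement are in
`Pool/Agent/Lib/MP_266831_co/TopDefs.lean`.
-/

set_option autoImplicit false

namespace Pool.Agent.Results.MP_266831_co.UpperGeneral

open Pool.Agent.Lib.MP_266831_co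

/-- Blow-up of a layout of `K_{16,16}`: for `p ≤ 16 n` and `q ≤ 16 m`,
`cr_2(K_{p,q}) ≤ m^2 (368 n^2 + 384 C(n,2)) + C(m,2) (389 n^2 + 256 C(n,2))`; and for all `p` and `q`:
`cr_2(K_{p,q}) ≤ (p+16)^2 (q+16)^2 / 80`. -/
theorem result :
    (∀ p q n m : ℕ, p ≤ 16 * n → q ≤ 16 * m →
      crTwoTop (completeBipartiteGraph (Fin p) (Fin q)) ≤
        ((m ^ 2 * (368 * n ^ 2 + 384 * n.choose 2) +
          m.choose 2 * (389 * n ^ 2 + 256 * n.choose 2) : ℕ) : ℕ∞)) ∧
    (∀ p q : ℕ, 80 * crTwoTop (completeBipartiteGraph (Fin p) (Fin q)) ≤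
      (((p + 16) ^ 2 * (q + 16) ^ 2 : ℕ) : ℕ∞)) := by
  refine ⟨fun p q n m hp hq => ?_, fun p q => ?_⟩
  · rw [← crTwo_eq_crTwoTop]
    refine (upper16_fine hp hq).trans (le_of_eq ?_)
    congr 1
    ring
  · rw [← crTwo_eq_crTwoTop]
    exact upper_gen p q

end Pool.Agent.Results.MP_266831_co.UpperGeneral
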