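import Pool.Agent.Lib.MP_266831_co.TopDefs
import Pool.Agent.Lib.MP_266831_co.Top
import Pool.Agent.Lib.MP_266831_co.UpperTen

/-!
# Upper bounds for the biplanar crossing number of `K_{p,q}`, `p = 9, 10, 11, 12`

The definitions `TopDrawing`, `TopDrawing.crossings`, `crTop`, `crTwoTop` of the statement are in
`Pool/Agent/Lib/MP_266831_co/TopDefs.lean`.
-/

set_option autoImplicit false

namespace Pool.Agent.Results.MP_266831_co.UpperNineToTwelve

open Pool.Agent.Lib.MP_266831_co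

/-- For all `q`: `cr_2(K_{9,q}) ≤ (753/1568) (q+28)^2`, `cr_2(K_{10,q}) ≤ (13/20) (q+40)^2`,
`cr_2(K_{11,q}) ≤ (55/64) (q+24)^2`, `cr_2(K_{12,q}) ≤ (137/128) (q+16)^2`. -/
theorem result (q : ℕ) :
    1568 * crTwoTop (completeBipartiteGraph (Fin 9) (Fin q)) ≤ ((753 * (q + 28) ^ 2 : ℕ) : ℕ∞) ∧
    20 * crTwoTop (completeBipartiteGraph (Fin 10) (Fin q)) ≤ ((13 * (q + 40) ^ 2 : ℕ) : ℕ∞) ∧
    64 * crTwoTop (completeBipartiteGraph (Fin 11) (Fin q)) ≤ ((55 * (q + 24) ^ 2 : ℕ) : ℕ∞) ∧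
    128 * crTwoTop (completeBipartiteGraph (Fin 12) (Fin q)) ≤ ((137 * (q + 16) ^ 2 : ℕ) : ℕ∞) := by
  rw [← crTwo_eq_crTwoTop, ← crTwo_eq_crTwoTop, ← crTwo_eq_crTwoTop, ← crTwo_eq_crTwoTop]
  exact ⟨upper_all (by norm_num) upper9 (by norm_num) q,
    upper_all (by norm_num) upper10 (by norm_num) q,
    upper_all (by norm_num) upper11 (by norm_num) q,
    upper_all (by norm_num) upper12 (by norm_num) q⟩

end Pool.Agent.Results.MP_266831_co.UpperNineToTwelve
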